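import Pool.Agent.H.MP_9067ea_co.A

set_option autoImplicit false
open Pool.Agent.H.MP_9067ea_co

namespace Pool.Agent.Results.MP_9067ea_co.Lower

theorem result (n k : ℕ) (hk : k ≤ n) (w : List (Fin n))
    (h : ∀ π : List (Fin n), π.Nodup → π.length = k → π.Sublist w) :
    k * n + max (k - 2) (3 * k - 11) ≤ w.length + k.choose 2 := by
  have h1 := main k (Finset.univ : Finset (Fin n)) w (by simpa using hk) (fun π a b _ => h π a b)
  have h2 := F_eq k n hk
  have h3 : c (Finset.univ : Finset (Fin n)) w ≤ w.length := List.countP_le_length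
  rw [Finset.card_univ, Fintype.card_fin] at h1
  omega

end Pool.Agent.Results.MP_9067ea_co.Lower
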